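import Mathlib

set_option autoImplicit false

namespace Pool.Agent.Helper992.OneX

open Finset

/-- number of classes in the partition lemma -/
def T : ℕ → ℕ
  | 0 => 1
  | N + 1 => (N + 1) * T ((N + 1) / 2) + 1
decreasing_by omega

theorem T_zero : T 0 = 1 := by rw [T]

theorem T_succ (N : ℕ) : T (N + 1) = (N + 1) * T ((N + 1) / 2) + 1 := by rw [T]

theorem one_le_T (N : ℕ) : 1 ≤ T N := by
  cases N with
  | zero => rw [T_zero]
  | succ n => rw [T_succ]; omega

/-- The partition lemma in summed form (the deterministic protocol for clique versus independent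
set): if `|A k ∩ B l ∩ V| ≤ 1` for all members and every subfamily for which `V` is pure has
`f`-sum at most `M`, then the whole `f`-sum is at most `T |V| * M`. -/
theorem part {ι α : Type*} [DecidableEq ι] [DecidableEq α] (A B : ι → Finset α) (f : ι → ℝ)
    (hf : ∀ k, 0 ≤ f k) (M : ℝ) (hM : 0 ≤ M) : ∀ (N : ℕ) (V : Finset α) (K : Finset ι),
    V.card ≤ N → (∀ k ∈ K, Disjoint (A k) (B k)) →
    (∀ k ∈ K, ∀ l ∈ K, (A k ∩ B l ∩ V).card ≤ 1) →
    (∀ K' ⊆ K, (∀ k ∈ K', ∀ l ∈ K', Disjoint (A k ∩ B l) V) → ∑ k ∈ K', f k ≤ M) →
    ∑ k ∈ K, f k ≤ (T N : ℝ) * M := by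
  intro N
  induction N using Nat.strong_induction_on with
  | _ N ih =>
    intro V K hV hAB h1 hP
    cases N with
    | zero =>
      have hV0 : V = ∅ := Finset.card_eq_zero.mp (Nat.le_zero.mp hV)
      subst hV0
      rw [T_zero]
      simpa using hP K (Finset.Subset.refl K) (fun k _ l _ => Finset.disjoint_empty_right _)
    | succ n =>
      -- neighbourhoods
      let Nb : α → Finset α := fun z => V.filter (fun z' => z' ≠ z ∧ ∃ k ∈ K, z ∈ A k ∧ z' ∈ A k)
      let P : α → ι → Prop := fun z k =>
        if 2 * (Nb z).card ≤ V.card - 1 then z ∈ A k else z ∈ B k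
      have hNsub : ∀ z, Nb z ⊆ V.erase z := by
        intro z y hy
        simp only [Nb, Finset.mem_filter] at hy
        exact Finset.mem_erase.mpr ⟨hy.2.1, hy.1⟩
      classical
      -- one class for every `z`
      have hz : ∀ z ∈ V, ∑ k ∈ K.filter (fun k => P z k), f k ≤ (T ((n + 1) / 2) : ℝ) * M := by
        intro z hzV
        have hcardE : (V.erase z).card = V.card - 1 := Finset.card_erase_of_mem hzV
        have hVpos : 1 ≤ V.card := Finset.card_pos.mpr ⟨z, hzV⟩
        by_cases hs : 2 * (Nb z).card ≤ V.card - 1
        · -- small
          have hPz : ∀ k, P z k ↔ z ∈ A k := fun k => by simp only [P, if_pos hs]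
          refine ih ((n + 1) / 2) (by omega) (Nb z) _ (by omega) ?_ ?_ ?_
          · intro k hk
            exact hAB k (Finset.mem_filter.mp hk).1
          · intro k hk l hl
            refine le_trans (Finset.card_le_card ?_)
              (h1 k (Finset.mem_filter.mp hk).1 l (Finset.mem_filter.mp hl).1)
            exact Finset.inter_subset_inter_left
              ((hNsub z).trans (Finset.erase_subset _ _))
          · intro K' hK' hpure
            refine hP K' (hK'.trans (Finset.filter_subset _ _)) ?_
            intro k hk l hl
            rw [Finset.disjoint_left]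
            intro y hy hyV
            have hkA : z ∈ A k := (hPz k).mp (Finset.mem_filter.mp (hK' hk)).2
            have hlA : z ∈ A l := (hPz l).mp (Finset.mem_filter.mp (hK' hl)).2
            have hkK : k ∈ K := (Finset.mem_filter.mp (hK' hk)).1
            have hlK : l ∈ K := (Finset.mem_filter.mp (hK' hl)).1
            rw [Finset.mem_inter] at hy
            by_cases hyz : y = z
            · subst hyz
              exact (Finset.disjoint_left.mp (hAB l hlK)) hlA hy.2
            · have hyN : y ∈ Nb z := by
                simp only [Nb, Finset.mem_filter]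
                exact ⟨hyV, hyz, k, hkK, hkA, hy.1⟩
              exact (Finset.disjoint_left.mp (hpure k hk l hl))
                (Finset.mem_inter.mpr hy) hyN
        · -- large
          have hPz : ∀ k, P z k ↔ z ∈ B k := fun k => by simp only [P, if_neg hs]
          have hcard2 : ((V.erase z) \ Nb z).card = V.card - 1 - (Nb z).card := by
            rw [Finset.card_sdiff_of_subset (hNsub z), hcardE]
          refine ih ((n + 1) / 2) (by omega) ((V.erase z) \ Nb z) _ (by omega) ?_ ?_ ?_
          · intro k hk
            exact hAB k (Finset.mem_filter.mp hk).1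
          · intro k hk l hl
            refine le_trans (Finset.card_le_card ?_)
              (h1 k (Finset.mem_filter.mp hk).1 l (Finset.mem_filter.mp hl).1)
            exact Finset.inter_subset_inter_left
              (Finset.sdiff_subset.trans (Finset.erase_subset _ _))
          · intro K' hK' hpure
            refine hP K' (hK'.trans (Finset.filter_subset _ _)) ?_
            intro k hk l hl
            rw [Finset.disjoint_left]
            intro y hy hyV
            have hkB : z ∈ B k := (hPz k).mp (Finset.mem_filter.mp (hK' hk)).2
            have hlB : z ∈ B l := (hPz l).mp (Finset.mem_filter.mp (hK' hl)).2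
            have hkK : k ∈ K := (Finset.mem_filter.mp (hK' hk)).1
            have hlK : l ∈ K := (Finset.mem_filter.mp (hK' hl)).1
            rw [Finset.mem_inter] at hy
            by_cases hyz : y = z
            · subst hyz
              exact (Finset.disjoint_left.mp (hAB k hkK)) hy.1 hkB
            · by_cases hyN : y ∈ Nb z
              · simp only [Nb, Finset.mem_filter] at hyN
                obtain ⟨_, _, j, hjK, hzj, hyj⟩ := hyN
                have hc := h1 j hjK l hlK
                rw [Finset.card_le_one] at hc
                exact hyz (hc y (Finset.mem_inter.mpr ⟨Finset.mem_inter.mpr ⟨hyj, hy.2⟩, hyV⟩)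
                  z (Finset.mem_inter.mpr ⟨Finset.mem_inter.mpr ⟨hzj, hlB⟩, hzV⟩))
              · exact (Finset.disjoint_left.mp (hpure k hk l hl))
                  (Finset.mem_inter.mpr hy)
                  (Finset.mem_sdiff.mpr ⟨Finset.mem_erase.mpr ⟨hyz, hyV⟩, hyN⟩)
      -- the remaining class
      have h0 : ∑ k ∈ K.filter (fun k => ∀ z ∈ V, ¬ P z k), f k ≤ M := by
        refine hP _ (Finset.filter_subset _ _) ?_
        intro k hk l hl
        rw [Finset.disjoint_left]
        intro y hy hyV
        rw [Finset.mem_inter] at hy
        have hk' := (Finset.mem_filter.mp hk).2 y hyV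
        have hl' := (Finset.mem_filter.mp hl).2 y hyV
        by_cases hs : 2 * (Nb y).card ≤ V.card - 1
        · simp only [P, if_pos hs] at hk'
          exact hk' hy.1
        · simp only [P, if_neg hs] at hl'
          exact hl' hy.2
      have hU : ∑ k ∈ K, f k ≤ ∑ z ∈ V, ∑ k ∈ K.filter (fun k => P z k), f k +
          ∑ k ∈ K.filter (fun k => ∀ z ∈ V, ¬ P z k), f k := by
        simp only [Finset.sum_filter]
        rw [Finset.sum_comm, ← Finset.sum_add_distrib]
        refine Finset.sum_le_sum fun k _ => ?_
        by_cases hall : ∀ z ∈ V, ¬ P z k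
        · rw [if_pos hall]
          have : 0 ≤ ∑ z ∈ V, (if P z k then f k else 0) :=
            Finset.sum_nonneg fun z _ => by split_ifs <;> simp [hf k]
          linarith
        · rw [if_neg hall]
          push Not at hall
          obtain ⟨z, hzV, hzP⟩ := hall
          have := Finset.single_le_sum (f := fun z => if P z k then f k else 0)
            (fun z _ => by
              show 0 ≤ (if P z k then f k else 0)
              split_ifs
              · exact hf k
              · exact le_rfl) hzV
          simp only [if_pos hzP] at this
          linarith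
      have hsum : ∑ z ∈ V, ∑ k ∈ K.filter (fun k => P z k), f k ≤
          (V.card : ℝ) * ((T ((n + 1) / 2) : ℝ) * M) := by
        calc ∑ z ∈ V, ∑ k ∈ K.filter (fun k => P z k), f k
            ≤ ∑ z ∈ V, (T ((n + 1) / 2) : ℝ) * M := Finset.sum_le_sum hz
          _ = _ := by rw [Finset.sum_const, nsmul_eq_mul]
      have hle : (V.card : ℝ) * ((T ((n + 1) / 2) : ℝ) * M) ≤
          ((n : ℝ) + 1) * ((T ((n + 1) / 2) : ℝ) * M) := by
        have : (V.card : ℝ) ≤ (n : ℝ) + 1 := by exact_mod_cast hV
        exact mul_le_mul_of_nonneg_right this (by positivity)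
      rw [T_succ]
      push_cast
      nlinarith [hU, hsum, hle, h0]

end Pool.Agent.Helper992.OneX
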