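import Mathlib
import Pool.Agent.Helper992.OneX.Part

set_option autoImplicit false

namespace Pool.Agent.Helper992.OneX

open Finset

theorem quarter_half : ((1 : ℝ) / 2) ^ ((1 : ℝ) / 4) ≤ 7 / 8 := by
  have h : ((1 : ℝ) / 2) ≤ (7 / 8 : ℝ) ^ (4 : ℝ) := by
    rw [show (4 : ℝ) = ((4 : ℕ) : ℝ) by norm_num, Real.rpow_natCast]
    norm_num
  calc ((1 : ℝ) / 2) ^ ((1 : ℝ) / 4) ≤ ((7 / 8 : ℝ) ^ (4 : ℝ)) ^ ((1 : ℝ) / 4) :=
        Real.rpow_le_rpow (by norm_num) h (by norm_num)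
    _ = 7 / 8 := by
        rw [← Real.rpow_mul (by norm_num)]
        norm_num

theorem quarter_two : ((2 : ℝ)) ^ ((1 : ℝ) / 4) ≤ 5 / 4 := by
  have h : (2 : ℝ) ≤ (5 / 4 : ℝ) ^ (4 : ℝ) := by
    rw [show (4 : ℝ) = ((4 : ℕ) : ℝ) by norm_num, Real.rpow_natCast]
    norm_num
  calc ((2 : ℝ)) ^ ((1 : ℝ) / 4) ≤ ((5 / 4 : ℝ) ^ (4 : ℝ)) ^ ((1 : ℝ) / 4) :=
        Real.rpow_le_rpow (by norm_num) h (by norm_num)
    _ = 5 / 4 := by
        rw [← Real.rpow_mul (by norm_num)]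
        norm_num

theorem log_succ_le (N : ℕ) (hN : 1 ≤ N) :
    Real.log ((N : ℝ) + 1) ≤ 5 * (N : ℝ) ^ ((1 : ℝ) / 4) := by
  have hN' : (1 : ℝ) ≤ N := by exact_mod_cast hN
  have h1 : Real.log ((N : ℝ) + 1) ≤ ((N : ℝ) + 1) ^ ((1 : ℝ) / 4) / (1 / 4) :=
    Real.log_le_rpow_div (by positivity) (by norm_num)
  have h2 : ((N : ℝ) + 1) ^ ((1 : ℝ) / 4) ≤ (2 * (N : ℝ)) ^ ((1 : ℝ) / 4) :=
    Real.rpow_le_rpow (by positivity) (by linarith) (by norm_num)
  rw [Real.mul_rpow (by norm_num) (by positivity)] at h2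
  have h3 : (0 : ℝ) ≤ (N : ℝ) ^ ((1 : ℝ) / 4) := by positivity
  have h4 := mul_le_mul_of_nonneg_right quarter_two h3
  linarith

theorem T_le_exp (N : ℕ) : (T N : ℝ) ≤ Real.exp (40 * (N : ℝ) ^ ((1 : ℝ) / 4)) := by
  induction N using Nat.strong_induction_on with
  | _ N ih =>
    cases N with
    | zero => rw [T_zero]; simp
    | succ n =>
      have h1 := ih ((n + 1) / 2) (by omega)
      have hhalf : (((n + 1) / 2 : ℕ) : ℝ) ≤ ((n + 1 : ℕ) : ℝ) * (1 / 2) := by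
        have := @Nat.cast_div_le ℝ _ _ _ (n + 1) 2
        push_cast at this ⊢
        linarith
      have h2 : (((n + 1) / 2 : ℕ) : ℝ) ^ ((1 : ℝ) / 4) ≤
          ((n + 1 : ℕ) : ℝ) ^ ((1 : ℝ) / 4) * (7 / 8) := by
        calc (((n + 1) / 2 : ℕ) : ℝ) ^ ((1 : ℝ) / 4)
            ≤ (((n + 1 : ℕ) : ℝ) * (1 / 2)) ^ ((1 : ℝ) / 4) :=
              Real.rpow_le_rpow (by positivity) hhalf (by norm_num)
          _ = ((n + 1 : ℕ) : ℝ) ^ ((1 : ℝ) / 4) * (1 / 2) ^ ((1 : ℝ) / 4) :=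
              Real.mul_rpow (by positivity) (by norm_num)
          _ ≤ _ := mul_le_mul_of_nonneg_left quarter_half (by positivity)
      set q : ℝ := ((n + 1 : ℕ) : ℝ) ^ ((1 : ℝ) / 4) with hq
      have h3 : (T ((n + 1) / 2) : ℝ) ≤ Real.exp (35 * q) := by
        refine h1.trans (Real.exp_le_exp.mpr ?_)
        linarith
      have h4 := log_succ_le (n + 1) (by omega)
      rw [← hq] at h4
      have h5 : ((n + 1 : ℕ) : ℝ) + 1 ≤ Real.exp (5 * q) := by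
        rw [← Real.log_le_iff_le_exp (by positivity)]
        exact h4
      have h6 : (1 : ℝ) ≤ Real.exp (35 * q) := Real.one_le_exp (by positivity)
      rw [T_succ]
      push_cast at h5 ⊢
      calc ((n : ℝ) + 1) * (T ((n + 1) / 2) : ℝ) + 1
          ≤ ((n : ℝ) + 1) * Real.exp (35 * q) + Real.exp (35 * q) := by
            have := mul_le_mul_of_nonneg_left h3 (show (0 : ℝ) ≤ (n : ℝ) + 1 by positivity)
            linarith
        _ = ((n : ℝ) + 1 + 1) * Real.exp (35 * q) := by ring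
        _ ≤ Real.exp (5 * q) * Real.exp (35 * q) :=
            mul_le_mul_of_nonneg_right h5 (Real.exp_pos _).le
        _ = Real.exp (40 * q) := by rw [← Real.exp_add]; ring_nf

/-- `3 log (2 T N) ≤ 123 N^(1/4)` -/
theorem log_T_le (N : ℕ) (hN : 1 ≤ N) :
    3 * Real.log (2 * (T N : ℝ)) ≤ 123 * (N : ℝ) ^ ((1 : ℝ) / 4) := by
  have hN' : (1 : ℝ) ≤ N := by exact_mod_cast hN
  have hT : (0 : ℝ) < (T N : ℝ) := by exact_mod_cast (one_le_T N)
  have h1 : Real.log (T N : ℝ) ≤ 40 * (N : ℝ) ^ ((1 : ℝ) / 4) := by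
    rw [Real.log_le_iff_le_exp hT]
    exact T_le_exp N
  have h2 : (1 : ℝ) ≤ (N : ℝ) ^ ((1 : ℝ) / 4) := Real.one_le_rpow hN' (by norm_num)
  have h3 : Real.log 2 ≤ 1 := by
    have := Real.log_two_lt_d9
    linarith
  rw [Real.log_mul (by norm_num) hT.ne']
  linarith

/-- the first moment of the number of incidences with `Y` -/
theorem mass {ι α : Type*} [DecidableEq α] (K : Finset ι) (A B : ι → Finset α) (x V Tn : ℝ)
    (hx0 : 0 < x) (hx : x ≤ 2 / 3) (hT : 1 ≤ Tn) (Y : Finset α)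
    (hV : V ≤ 2 * ∑ k ∈ K, x ^ ((A k).card + (B k).card))
    (hr : ∑ k ∈ K, x ^ ((A k \ Y).card + (B k \ Y).card) ≤ Tn * V) :
    ∑ k ∈ K, x ^ ((A k).card + (B k).card) * (((A k ∩ Y).card + (B k ∩ Y).card : ℕ) : ℝ) ≤
      3 * Real.log (2 * Tn) * ∑ k ∈ K, x ^ ((A k).card + (B k).card) := by
  have hpt : ∀ k ∈ K, x ^ ((A k).card + (B k).card) *
      (((A k ∩ Y).card + (B k ∩ Y).card : ℕ) : ℝ) ≤
      3 * (x ^ ((A k \ Y).card + (B k \ Y).card) / (2 * Tn) +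
        (Real.log (2 * Tn) - 1) * x ^ ((A k).card + (B k).card)) := by
    intro k _
    have hA : (A k).card = (A k \ Y).card + (A k ∩ Y).card :=
      (Finset.card_sdiff_add_card_inter (A k) Y).symm
    have hB : (B k).card = (B k \ Y).card + (B k ∩ Y).card :=
      (Finset.card_sdiff_add_card_inter (B k) Y).symm
    obtain ⟨w, hw⟩ : ∃ w, w = (A k ∩ Y).card + (B k ∩ Y).card := ⟨_, rfl⟩
    obtain ⟨r, hr'⟩ : ∃ r, r = (A k \ Y).card + (B k \ Y).card := ⟨_, rfl⟩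
    have hsum : (A k).card + (B k).card = r + w := by omega
    rw [hsum, ← hw, ← hr', pow_add]
    have hxr : 0 < x ^ r := by positivity
    have hxw : 0 < x ^ w := by positivity
    have hlog : Real.log ((x ^ w)⁻¹ / (2 * Tn)) ≤ (x ^ w)⁻¹ / (2 * Tn) - 1 :=
      Real.log_le_sub_one_of_pos (by positivity)
    rw [Real.log_div (by positivity) (by positivity), Real.log_inv, Real.log_pow] at hlog
    have hlx : Real.log x ≤ -(1 / 3) := by
      have h1 := Real.log_le_sub_one_of_pos hx0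
      linarith
    have hw0 : (0 : ℝ) ≤ (w : ℝ) := Nat.cast_nonneg w
    have h2 : (w : ℝ) / 3 ≤ (x ^ w)⁻¹ / (2 * Tn) + (Real.log (2 * Tn) - 1) := by
      have := mul_le_mul_of_nonneg_left hlx hw0
      linarith
    have h3 := mul_le_mul_of_nonneg_left h2 (mul_pos hxr hxw).le
    have h4 : x ^ r * x ^ w * ((x ^ w)⁻¹ / (2 * Tn) + (Real.log (2 * Tn) - 1)) =
        x ^ r / (2 * Tn) + (Real.log (2 * Tn) - 1) * (x ^ r * x ^ w) := by
      field_simp
    rw [h4] at h3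
    linarith
  have hs := Finset.sum_le_sum hpt
  rw [← Finset.mul_sum, Finset.sum_add_distrib, ← Finset.sum_div, ← Finset.mul_sum] at hs
  have hT2 : (∑ k ∈ K, x ^ ((A k \ Y).card + (B k \ Y).card)) / (2 * Tn) ≤ V / 2 := by
    rw [div_le_iff₀ (by positivity)]
    linarith
  linarith

end Pool.Agent.Helper992.OneX
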