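import Mathlib
import Pool.Agent.Helper992.OneX.Bound

set_option autoImplicit false

namespace Pool.Agent.Helper992.OneX

open Finset

/-- sublinear mass on all sets bounds the second moment -/
theorem sq {α : Type*} [DecidableEq α] (g : α → ℝ) (hg : ∀ z, 0 ≤ g z) (C η : ℝ) (hC : 0 ≤ C)
    (hη : 0 ≤ η) : ∀ (n : ℕ) (Y : Finset α), Y.card = n → (∀ z ∈ Y, g z ≤ η) →
    (∀ Y' ⊆ Y, ∑ z ∈ Y', g z ≤ C * (Y'.card : ℝ) ^ ((1 : ℝ) / 4)) →
    ∑ z ∈ Y, g z ^ 2 ≤ η ^ ((1 : ℝ) / 2) *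
      ∑ j ∈ Finset.range n, C ^ ((3 : ℝ) / 2) * ((j : ℝ) + 1) ^ (-(9 / 8) : ℝ) := by
  intro n
  induction n with
  | zero =>
    intro Y hY _ _
    rw [Finset.card_eq_zero] at hY
    subst hY
    simp
  | succ n ih =>
    intro Y hY hle hmass
    have hne : Y.Nonempty := by
      rw [← Finset.card_pos, hY]
      omega
    obtain ⟨z0, hz0, hmin⟩ := Finset.exists_min_image Y g hne
    have h1 : ((n : ℝ) + 1) * g z0 ≤ C * ((n : ℝ) + 1) ^ ((1 : ℝ) / 4) := by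
      have h2 := Finset.card_nsmul_le_sum Y g (g z0) hmin
      have h3 := hmass Y (Finset.Subset.refl Y)
      rw [hY] at h2 h3
      rw [nsmul_eq_mul] at h2
      push_cast at h2 h3
      linarith
    have hn : (0 : ℝ) < (n : ℝ) + 1 := by positivity
    have h4 : g z0 ≤ C * ((n : ℝ) + 1) ^ (-(3 / 4) : ℝ) := by
      have h5 : ((n : ℝ) + 1) ^ ((1 : ℝ) / 4) = ((n : ℝ) + 1) * ((n : ℝ) + 1) ^ (-(3 / 4) : ℝ) := by
        nth_rewrite 2 [← Real.rpow_one ((n : ℝ) + 1)]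
        rw [← Real.rpow_add hn]
        norm_num
      rw [h5] at h1
      have h6 : ((n : ℝ) + 1) * g z0 ≤ ((n : ℝ) + 1) * (C * ((n : ℝ) + 1) ^ (-(3 / 4) : ℝ)) := by
        linarith
      exact le_of_mul_le_mul_left h6 hn
    have h7 : g z0 ^ 2 ≤ η ^ ((1 : ℝ) / 2) *
        (C ^ ((3 : ℝ) / 2) * ((n : ℝ) + 1) ^ (-(9 / 8) : ℝ)) := by
      have e1 : g z0 ^ 2 = g z0 ^ ((1 : ℝ) / 2) * g z0 ^ ((3 : ℝ) / 2) := by
        rw [← Real.rpow_add_of_nonneg (hg z0) (by norm_num) (by norm_num)]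
        rw [show (1 : ℝ) / 2 + 3 / 2 = ((2 : ℕ) : ℝ) by norm_num, Real.rpow_natCast]
      have e2 : (C * ((n : ℝ) + 1) ^ (-(3 / 4) : ℝ)) ^ ((3 : ℝ) / 2) =
          C ^ ((3 : ℝ) / 2) * ((n : ℝ) + 1) ^ (-(9 / 8) : ℝ) := by
        rw [Real.mul_rpow hC (by positivity), ← Real.rpow_mul hn.le]
        norm_num
      rw [e1, ← e2]
      exact mul_le_mul (Real.rpow_le_rpow (hg z0) (hle z0 hz0) (by norm_num))
        (Real.rpow_le_rpow (hg z0) h4 (by norm_num)) (Real.rpow_nonneg (hg z0) _)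
        (Real.rpow_nonneg hη _)
    have h8 := ih (Y.erase z0) (by rw [Finset.card_erase_of_mem hz0, hY]; omega)
      (fun z hz => hle z (Finset.mem_of_mem_erase hz))
      (fun Y' hY' => hmass Y' (hY'.trans (Finset.erase_subset _ _)))
    rw [← Finset.add_sum_erase Y (fun z => g z ^ 2) hz0, Finset.sum_range_succ, mul_add]
    linarith

theorem summable_aux : Summable (fun j : ℕ => ((j : ℝ) + 1) ^ (-(9 / 8) : ℝ)) := by
  have h : Summable (fun n : ℕ => (n : ℝ) ^ (-(9 / 8) : ℝ)) :=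
    Real.summable_nat_rpow.mpr (by norm_num)
  have h2 := (summable_nat_add_iff 1).mpr h
  refine h2.congr fun j => ?_
  push_cast
  rfl

/-- the constant for the second moment -/
noncomputable def C4 : ℝ := (123 : ℝ) ^ ((3 : ℝ) / 2) * ∑' j : ℕ, ((j : ℝ) + 1) ^ (-(9 / 8) : ℝ)

theorem C4_nonneg : 0 ≤ C4 := by
  unfold C4
  exact mul_nonneg (by positivity) (tsum_nonneg fun j => by positivity)

theorem sq' {α : Type*} [DecidableEq α] (g : α → ℝ) (hg : ∀ z, 0 ≤ g z) (η : ℝ)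
    (hη : 0 ≤ η) (Y : Finset α) (hle : ∀ z ∈ Y, g z ≤ η)
    (hm : ∀ Y' ⊆ Y, ∑ z ∈ Y', g z ≤ 123 * (Y'.card : ℝ) ^ ((1 : ℝ) / 4)) :
    ∑ z ∈ Y, g z ^ 2 ≤ η ^ ((1 : ℝ) / 2) * C4 := by
  refine (sq g hg 123 η (by norm_num) hη Y.card Y rfl hle hm).trans ?_
  refine mul_le_mul_of_nonneg_left ?_ (Real.rpow_nonneg hη _)
  rw [← Finset.mul_sum]
  unfold C4
  exact mul_le_mul_of_nonneg_left
    (summable_aux.sum_le_tsum _ (fun j _ => by positivity)) (by positivity)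

/-- the profile of a weighted family of sets -/
noncomputable def prof {ι α : Type*} [DecidableEq α] (K : Finset ι) (S : ι → Finset α)
    (f : ι → ℝ) (z : α) : ℝ := (∑ k ∈ K, if z ∈ S k then f k else 0) / ∑ k ∈ K, f k

theorem prof_nonneg {ι α : Type*} [DecidableEq α] (K : Finset ι) (S : ι → Finset α)
    (f : ι → ℝ) (hf : ∀ k, 0 ≤ f k) (z : α) : 0 ≤ prof K S f z := by
  unfold prof
  exact div_nonneg (Finset.sum_nonneg fun k _ => by split_ifs <;> simp [hf k])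
    (Finset.sum_nonneg fun k _ => hf k)

theorem prof_le_one {ι α : Type*} [DecidableEq α] (K : Finset ι) (S : ι → Finset α)
    (f : ι → ℝ) (hf : ∀ k, 0 ≤ f k) (z : α) : prof K S f z ≤ 1 := by
  unfold prof
  refine div_le_one_of_le₀ (Finset.sum_le_sum fun k _ => ?_) (Finset.sum_nonneg fun k _ => hf k)
  split_ifs
  · exact le_rfl
  · exact hf k

theorem prof_sum {ι α : Type*} [DecidableEq α] (K : Finset ι) (S : ι → Finset α)
    (f : ι → ℝ) (Y : Finset α) :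
    ∑ z ∈ Y, prof K S f z = (∑ k ∈ K, f k * ((S k ∩ Y).card : ℝ)) / ∑ k ∈ K, f k := by
  unfold prof
  rw [← Finset.sum_div, Finset.sum_comm]
  congr 1
  refine Finset.sum_congr rfl fun k _ => ?_
  rw [← Finset.sum_filter, Finset.sum_const, nsmul_eq_mul, mul_comm,
    Finset.filter_mem_eq_inter, Finset.inter_comm]

/-- mass of the profiles of a system all of whose pure restrictions have value at most `V` -/
theorem state {ι α : Type*} [DecidableEq ι] [DecidableEq α] (K : Finset ι) (A B : ι → Finset α)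
    (x V : ℝ) (hx0 : 0 < x) (hx : x ≤ 2 / 3)
    (hd : ∀ k ∈ K, Disjoint (A k) (B k))
    (h1 : ∀ k ∈ K, ∀ l ∈ K, (A k ∩ B l).card ≤ 1)
    (hV0 : 0 < V)
    (H : ∀ K' ⊆ K, ∀ Y : Finset α, (∀ k ∈ K', ∀ l ∈ K', Disjoint (A k ∩ B l) Y) →
      ∑ k ∈ K', x ^ ((A k \ Y).card + (B k \ Y).card) ≤ V)
    (hV : V ≤ 2 * ∑ k ∈ K, x ^ ((A k).card + (B k).card)) (Y : Finset α) :
    ∑ k ∈ K, x ^ ((A k).card + (B k).card) * (((A k ∩ Y).card + (B k ∩ Y).card : ℕ) : ℝ) ≤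
      123 * (Y.card : ℝ) ^ ((1 : ℝ) / 4) * ∑ k ∈ K, x ^ ((A k).card + (B k).card) := by
  rcases Nat.eq_zero_or_pos Y.card with h0 | hpos
  · rw [Finset.card_eq_zero] at h0
    subst h0
    simp
  · have hp := part A B (fun k => x ^ ((A k \ Y).card + (B k \ Y).card))
      (fun k => by positivity) V hV0.le Y.card Y K le_rfl hd
      (fun k hk l hl => (Finset.card_le_card Finset.inter_subset_left).trans (h1 k hk l hl))
      (fun K' hK' hpure => H K' hK' Y hpure)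
    have hm := mass K A B x V (T Y.card : ℝ) hx0 hx (by exact_mod_cast one_le_T _) Y hV hp
    refine hm.trans ?_
    exact mul_le_mul_of_nonneg_right (log_T_le Y.card hpos)
      (Finset.sum_nonneg fun k _ => by positivity)

theorem profA {ι α : Type*} [DecidableEq ι] [DecidableEq α] (K : Finset ι) (A B : ι → Finset α)
    (x V : ℝ) (hx0 : 0 < x) (hx : x ≤ 2 / 3)
    (hd : ∀ k ∈ K, Disjoint (A k) (B k))
    (h1 : ∀ k ∈ K, ∀ l ∈ K, (A k ∩ B l).card ≤ 1)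
    (hV0 : 0 < V)
    (H : ∀ K' ⊆ K, ∀ Y : Finset α, (∀ k ∈ K', ∀ l ∈ K', Disjoint (A k ∩ B l) Y) →
      ∑ k ∈ K', x ^ ((A k \ Y).card + (B k \ Y).card) ≤ V)
    (hV : V ≤ 2 * ∑ k ∈ K, x ^ ((A k).card + (B k).card)) (Y : Finset α) :
    ∑ z ∈ Y, prof K A (fun k => x ^ ((A k).card + (B k).card)) z ≤
      123 * (Y.card : ℝ) ^ ((1 : ℝ) / 4) := by
  have hS : 0 < ∑ k ∈ K, x ^ ((A k).card + (B k).card) := by linarith
  rw [prof_sum, div_le_iff₀ hS]
  refine le_trans (Finset.sum_le_sum fun k _ => ?_)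
    (state K A B x V hx0 hx hd h1 hV0 H hV Y)
  refine mul_le_mul_of_nonneg_left ?_ (by positivity)
  push_cast
  linarith [(Nat.cast_nonneg (B k ∩ Y).card : (0 : ℝ) ≤ _)]

theorem profB {ι α : Type*} [DecidableEq ι] [DecidableEq α] (K : Finset ι) (A B : ι → Finset α)
    (x V : ℝ) (hx0 : 0 < x) (hx : x ≤ 2 / 3)
    (hd : ∀ k ∈ K, Disjoint (A k) (B k))
    (h1 : ∀ k ∈ K, ∀ l ∈ K, (A k ∩ B l).card ≤ 1)
    (hV0 : 0 < V)
    (H : ∀ K' ⊆ K, ∀ Y : Finset α, (∀ k ∈ K', ∀ l ∈ K', Disjoint (A k ∩ B l) Y) →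
      ∑ k ∈ K', x ^ ((A k \ Y).card + (B k \ Y).card) ≤ V)
    (hV : V ≤ 2 * ∑ k ∈ K, x ^ ((A k).card + (B k).card)) (Y : Finset α) :
    ∑ z ∈ Y, prof K B (fun k => x ^ ((A k).card + (B k).card)) z ≤
      123 * (Y.card : ℝ) ^ ((1 : ℝ) / 4) := by
  have hS : 0 < ∑ k ∈ K, x ^ ((A k).card + (B k).card) := by linarith
  rw [prof_sum, div_le_iff₀ hS]
  refine le_trans (Finset.sum_le_sum fun k _ => ?_)
    (state K A B x V hx0 hx hd h1 hV0 H hV Y)
  refine mul_le_mul_of_nonneg_left ?_ (by positivity)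
  push_cast
  linarith [(Nat.cast_nonneg (A k ∩ Y).card : (0 : ℝ) ≤ _)]

end Pool.Agent.Helper992.OneX
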