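import Mathlib
import Pool.Agent.Helper992.OneX.State

set_option autoImplicit false

namespace Pool.Agent.Helper992.OneX

open Finset

/-- If all pure restrictions have value at most `V` and the whole system has value at least `V`,
then the subsystem of all members with `B k` disjoint from `W` has value close to `V`. -/
theorem growth {ι α : Type*} [DecidableEq ι] [DecidableEq α] (K : Finset ι) (A B : ι → Finset α)
    (x V δ : ℝ) (hδ0 : 0 ≤ δ) (hδ : δ ≤ 1 / 3) (hx : x = (1 + δ) / 2)
    (hd : ∀ k ∈ K, Disjoint (A k) (B k))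
    (hV0 : 0 < V)
    (H : ∀ K' ⊆ K, ∀ Y : Finset α, (∀ k ∈ K', ∀ l ∈ K', Disjoint (A k ∩ B l) Y) →
      ∑ k ∈ K', x ^ ((A k \ Y).card + (B k \ Y).card) ≤ V)
    (hV : V ≤ ∑ k ∈ K, x ^ ((A k).card + (B k).card)) (W : Finset α) :
    (1 - δ * (2 ^ (W.card + 1) - 2)) * V ≤
      ∑ k ∈ K.filter (fun k => Disjoint (B k) W), x ^ ((A k \ W).card + (B k \ W).card) := by
  have hx0 : 0 < x := by rw [hx]; linarith
  have hxh : 1 / 2 ≤ x := by rw [hx]; linarith
  induction W using Finset.induction_on with
  | empty =>
    simp only [Finset.card_empty, Finset.disjoint_empty_right, Finset.filter_true,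
      Finset.sdiff_empty]
    norm_num
    exact hV
  | insert z W hz ih =>
    have hpt : ∀ k ∈ K,
        (if Disjoint (B k) W then x ^ ((A k \ W).card + (B k \ W).card) else 0) / x ≤
        (if Disjoint (B k) (insert z W) then
          x ^ ((A k \ insert z W).card + (B k \ insert z W).card) else 0) +
        (if Disjoint (B k) W ∧ z ∉ A k then
          x ^ ((A k \ insert z W).card + (B k \ insert z W).card) else 0) := by
      intro k hk
      by_cases hD : Disjoint (B k) W
      · by_cases hzA : z ∈ A k
        · have hzB : z ∉ B k := Finset.disjoint_left.mp (hd k hk) hzA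
          have hD2 : Disjoint (B k) (insert z W) := by
            rw [Finset.disjoint_insert_right]
            exact ⟨hzB, hD⟩
          rw [if_pos hD, if_pos hD2, if_neg (fun h => h.2 hzA), add_zero,
            Finset.sdiff_insert, Finset.sdiff_insert,
            Finset.card_erase_of_mem (Finset.mem_sdiff.mpr ⟨hzA, hz⟩),
            Finset.erase_eq_of_notMem (fun h => hzB (Finset.mem_sdiff.mp h).1)]
          have hpos : 1 ≤ (A k \ W).card :=
            Finset.card_pos.mpr ⟨z, Finset.mem_sdiff.mpr ⟨hzA, hz⟩⟩
          rw [div_le_iff₀ hx0, ← pow_succ]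
          apply le_of_eq
          congr 1
          omega
        · by_cases hzB : z ∈ B k
          · have hD2 : ¬ Disjoint (B k) (insert z W) := by
              rw [Finset.disjoint_insert_right]
              exact fun h => h.1 hzB
            rw [if_pos hD, if_neg hD2, if_pos ⟨hD, hzA⟩, zero_add,
              Finset.sdiff_insert, Finset.sdiff_insert,
              Finset.card_erase_of_mem (Finset.mem_sdiff.mpr ⟨hzB, hz⟩),
              Finset.erase_eq_of_notMem (fun h => hzA (Finset.mem_sdiff.mp h).1)]
            have hpos : 1 ≤ (B k \ W).card :=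
              Finset.card_pos.mpr ⟨z, Finset.mem_sdiff.mpr ⟨hzB, hz⟩⟩
            rw [div_le_iff₀ hx0, ← pow_succ]
            apply le_of_eq
            congr 1
            omega
          · have hD2 : Disjoint (B k) (insert z W) := by
              rw [Finset.disjoint_insert_right]
              exact ⟨hzB, hD⟩
            rw [if_pos hD, if_pos hD2, if_pos ⟨hD, hzA⟩,
              Finset.sdiff_insert, Finset.sdiff_insert,
              Finset.erase_eq_of_notMem (fun h => hzA (Finset.mem_sdiff.mp h).1),
              Finset.erase_eq_of_notMem (fun h => hzB (Finset.mem_sdiff.mp h).1),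
              div_le_iff₀ hx0]
            have hp : 0 < x ^ ((A k \ W).card + (B k \ W).card) := by positivity
            nlinarith
      · rw [if_neg hD, zero_div]
        refine add_nonneg ?_ ?_
        · split_ifs
          · positivity
          · exact le_rfl
        · split_ifs
          · positivity
          · exact le_rfl
    have hs := Finset.sum_le_sum hpt
    rw [← Finset.sum_div, Finset.sum_add_distrib, ← Finset.sum_filter, ← Finset.sum_filter,
      ← Finset.sum_filter] at hs
    have h2 : ∑ k ∈ K.filter (fun k => Disjoint (B k) W ∧ z ∉ A k),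
        x ^ ((A k \ insert z W).card + (B k \ insert z W).card) ≤ V := by
      refine H _ (Finset.filter_subset _ _) (insert z W) ?_
      intro k hk l hl
      rw [Finset.disjoint_left]
      intro y hy hyW
      rw [Finset.mem_inter] at hy
      have hk' := (Finset.mem_filter.mp hk).2
      have hl' := (Finset.mem_filter.mp hl).2
      rcases Finset.mem_insert.mp hyW with h | h
      · subst h
        exact hk'.2 hy.1
      · exact (Finset.disjoint_left.mp hl'.1) hy.2 h
    set R := ∑ k ∈ K.filter (fun k => Disjoint (B k) W), x ^ ((A k \ W).card + (B k \ W).card)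
      with hR
    have hR0 : 0 ≤ R := Finset.sum_nonneg fun k _ => by positivity
    have h3 : 2 * (1 - δ) * R ≤ R / x := by
      rw [le_div_iff₀ hx0, hx]
      nlinarith [mul_nonneg hR0 (mul_nonneg hδ0 hδ0)]
    have hcard : (insert z W).card = W.card + 1 := Finset.card_insert_of_notMem hz
    rw [hcard]
    have hpow : (2 : ℝ) ≤ 2 ^ (W.card + 1) := by
      rw [pow_succ]
      have : (1 : ℝ) ≤ 2 ^ W.card := one_le_pow₀ (by norm_num)
      linarith
    have h4 : 2 * (1 - δ) * ((1 - δ * (2 ^ (W.card + 1) - 2)) * V) ≤ 2 * (1 - δ) * R :=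
      mul_le_mul_of_nonneg_left ih (by linarith)
    have h5 : 0 ≤ δ * (δ * (2 ^ (W.card + 1) - 2)) * V :=
      mul_nonneg (mul_nonneg hδ0 (mul_nonneg hδ0 (by linarith))) hV0.le
    have h6 : (2 : ℝ) ^ (W.card + 1 + 1) = 2 * 2 ^ (W.card + 1) := by ring
    rw [h6]
    nlinarith [hs, h2, h3, h4, h5]

noncomputable def η0 : ℝ := (1 / (4 * (C4 ^ 2 + 1))) ^ 2

noncomputable def R0 : ℕ := ⌈(123 / η0) ^ ((4 : ℝ) / 3)⌉₊

noncomputable def δ0 : ℝ := 1 / (4 * 2 ^ R0)

noncomputable def x0 : ℝ := (1 + δ0) / 2

theorem η0_pos : 0 < η0 := by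
  unfold η0
  have := C4_nonneg
  positivity

theorem η0_sqrt : η0 ^ ((1 : ℝ) / 2) = 1 / (4 * (C4 ^ 2 + 1)) := by
  unfold η0
  have := C4_nonneg
  rw [← Real.rpow_natCast, ← Real.rpow_mul (by positivity)]
  norm_num

theorem δ0_pos : 0 < δ0 := by
  unfold δ0
  positivity

theorem δ0_le : δ0 ≤ 1 / 4 := by
  unfold δ0
  have h : (1 : ℝ) ≤ 2 ^ R0 := one_le_pow₀ (by norm_num)
  rw [div_le_div_iff₀ (by positivity) (by norm_num)]
  linarith

theorem x0_half : 1 / 2 < x0 := by
  unfold x0
  have := δ0_pos
  linarith

theorem x0_le : x0 ≤ 2 / 3 := by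
  unfold x0
  have := δ0_le
  linarith

end Pool.Agent.Helper992.OneX
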