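import Mathlib
import Pool.Agent.Helper992.OneX.Growth

set_option autoImplicit false

namespace Pool.Agent.Helper992.OneX

open Finset

/-- a set of heavy points is bounded -/
theorem card_le_R0 (n : ℕ) (h : η0 * (n : ℝ) ≤ 123 * (n : ℝ) ^ ((1 : ℝ) / 4)) : n ≤ R0 := by
  rcases Nat.eq_zero_or_pos n with h0 | hpos
  · omega
  · have hn : (0 : ℝ) < n := by exact_mod_cast hpos
    have hη := η0_pos
    have h1 : (n : ℝ) ^ ((3 : ℝ) / 4) ≤ 123 / η0 := by
      rw [le_div_iff₀ hη]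
      have h2 : (n : ℝ) = (n : ℝ) ^ ((3 : ℝ) / 4) * (n : ℝ) ^ ((1 : ℝ) / 4) := by
        rw [← Real.rpow_add hn]
        norm_num
      have h3 : (0 : ℝ) < (n : ℝ) ^ ((1 : ℝ) / 4) := by positivity
      have h4 : ((n : ℝ) ^ ((3 : ℝ) / 4) * η0) * (n : ℝ) ^ ((1 : ℝ) / 4) ≤
          123 * (n : ℝ) ^ ((1 : ℝ) / 4) := by
        calc ((n : ℝ) ^ ((3 : ℝ) / 4) * η0) * (n : ℝ) ^ ((1 : ℝ) / 4)
            = η0 * ((n : ℝ) ^ ((3 : ℝ) / 4) * (n : ℝ) ^ ((1 : ℝ) / 4)) := by ring
          _ = η0 * (n : ℝ) := by rw [← h2]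
          _ ≤ _ := h
      exact le_of_mul_le_mul_right h4 h3
    have h5 : (n : ℝ) ≤ (123 / η0) ^ ((4 : ℝ) / 3) := by
      calc (n : ℝ) = ((n : ℝ) ^ ((3 : ℝ) / 4)) ^ ((4 : ℝ) / 3) := by
            rw [← Real.rpow_mul hn.le]
            norm_num
        _ ≤ _ := Real.rpow_le_rpow (by positivity) h1 (by norm_num)
    have h6 := h5.trans (Nat.le_ceil _)
    exact_mod_cast h6

theorem main_step {ι α : Type*} [DecidableEq ι] [DecidableEq α] (K : Finset ι)
    (A B : ι → Finset α) (V : ℝ) (hd : ∀ k ∈ K, Disjoint (A k) (B k))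
    (hc : ∀ k ∈ K, ∀ l ∈ K, k ≠ l → (A k ∩ B l).card = 1)
    (hVd : V = ∑ k ∈ K, x0 ^ ((A k).card + (B k).card)) (hV1 : 1 < V)
    (H : ∀ K' ⊆ K, ∀ Y : Finset α, (∀ k ∈ K', ∀ l ∈ K', Disjoint (A k ∩ B l) Y) →
      ∑ k ∈ K', x0 ^ ((A k \ Y).card + (B k \ Y).card) ≤ V) : False := by
  have hx0 : 0 < x0 := by linarith [x0_half]
  have hxle := x0_le
  have hV0 : 0 < V := by linarith
  have h1 : ∀ k ∈ K, ∀ l ∈ K, (A k ∩ B l).card ≤ 1 := by
    intro k hk l hl
    by_cases hkl : k = l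
    · subst hkl
      rw [Finset.disjoint_iff_inter_eq_empty.mp (hd k hk)]
      simp
    · rw [hc k hk l hl hkl]
  -- weights are small
  have hsmall : ∀ k ∈ K, x0 ^ ((A k).card + (B k).card) ≤ 4 / 9 := by
    intro k hk
    obtain ⟨l, hl, hlk⟩ : ∃ l ∈ K, l ≠ k := by
      by_contra hno
      push Not at hno
      have hK : K = {k} := by
        ext j
        rw [Finset.mem_singleton]
        exact ⟨fun h => hno j h, fun h => h ▸ hk⟩
      rw [hK, Finset.sum_singleton] at hVd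
      have : x0 ^ ((A k).card + (B k).card) ≤ 1 := pow_le_one₀ hx0.le (by linarith)
      linarith
    have hA : 1 ≤ (A k).card := by
      have h2 := hc k hk l hl (Ne.symm hlk)
      have h3 : (A k ∩ B l).card ≤ (A k).card := Finset.card_le_card Finset.inter_subset_left
      omega
    have hB : 1 ≤ (B k).card := by
      have h2 := hc l hl k hk hlk
      have h3 : (A l ∩ B k).card ≤ (B k).card := Finset.card_le_card Finset.inter_subset_right
      omega
    have h2 : x0 ^ ((A k).card + (B k).card) ≤ x0 ^ 2 :=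
      pow_le_pow_of_le_one hx0.le (by linarith) (by omega)
    nlinarith
  -- the first profile
  obtain ⟨p, hp⟩ : ∃ p : α → ℝ, p = prof K A (fun k => x0 ^ ((A k).card + (B k).card)) :=
    ⟨_, rfl⟩
  have hpm : ∀ Y : Finset α, ∑ z ∈ Y, p z ≤ 123 * (Y.card : ℝ) ^ ((1 : ℝ) / 4) := by
    intro Y
    rw [hp]
    exact profA K A B x0 V hx0 hxle hd h1 hV0 H (by rw [← hVd]; linarith) Y
  have hp0 : ∀ z, 0 ≤ p z := by
    intro z
    rw [hp]
    exact prof_nonneg K A _ (fun k => by positivity) z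
  obtain ⟨W, hW⟩ : ∃ W : Finset α, W = (K.biUnion A).filter (fun z => η0 ≤ p z) := ⟨_, rfl⟩
  obtain ⟨Y0, hY0⟩ : ∃ Y0 : Finset α, Y0 = (K.biUnion A) \ W := ⟨_, rfl⟩
  have hWcard : W.card ≤ R0 := by
    apply card_le_R0
    refine le_trans ?_ (hpm W)
    have h2 := Finset.card_nsmul_le_sum W p η0 (fun z hz => by
      rw [hW] at hz
      exact (Finset.mem_filter.mp hz).2)
    rw [nsmul_eq_mul] at h2
    linarith
  -- the second system
  have hgr := growth K A B x0 V δ0 δ0_pos.le (by linarith [δ0_le]) rfl hd hV0 H hVd.le W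
  obtain ⟨K1, hK1⟩ : ∃ K1 : Finset ι, K1 = K.filter (fun k => Disjoint (B k) W) := ⟨_, rfl⟩
  obtain ⟨V1, hV1d⟩ : ∃ V1 : ℝ, V1 = ∑ k ∈ K1, x0 ^ ((A k \ W).card + (B k \ W).card) :=
    ⟨_, rfl⟩
  have hVV1 : V ≤ 2 * V1 := by
    rw [← hK1, ← hV1d] at hgr
    have h2 : δ0 * 2 ^ (W.card + 1) ≤ 1 / 2 := by
      have h3 : (2 : ℝ) ^ (W.card + 1) ≤ 2 * 2 ^ R0 := by
        rw [pow_succ, mul_comm]
        exact mul_le_mul_of_nonneg_left (pow_le_pow_right₀ (by norm_num) hWcard) (by norm_num)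
      calc δ0 * 2 ^ (W.card + 1) ≤ δ0 * (2 * 2 ^ R0) :=
            mul_le_mul_of_nonneg_left h3 δ0_pos.le
        _ = 1 / 2 := by
            unfold δ0
            field_simp
            norm_num
    have h3 := δ0_pos
    nlinarith
  have hV10 : 0 < V1 := by linarith
  have hK1K : K1 ⊆ K := by rw [hK1]; exact Finset.filter_subset _ _
  have hK1W : ∀ k ∈ K1, Disjoint (B k) W := by
    intro k hk
    rw [hK1] at hk
    exact (Finset.mem_filter.mp hk).2
  have hd1 : ∀ k ∈ K1, Disjoint (A k \ W) (B k \ W) := fun k hk =>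
    Finset.disjoint_of_subset_left Finset.sdiff_subset
      (Finset.disjoint_of_subset_right Finset.sdiff_subset (hd k (hK1K hk)))
  have h11 : ∀ k ∈ K1, ∀ l ∈ K1, ((A k \ W) ∩ (B l \ W)).card ≤ 1 := fun k hk l hl =>
    (Finset.card_le_card (Finset.inter_subset_inter Finset.sdiff_subset
      Finset.sdiff_subset)).trans (h1 k (hK1K hk) l (hK1K hl))
  have H1 : ∀ K' ⊆ K1, ∀ Y : Finset α,
      (∀ k ∈ K', ∀ l ∈ K', Disjoint ((A k \ W) ∩ (B l \ W)) Y) →
      ∑ k ∈ K', x0 ^ (((A k \ W) \ Y).card + ((B k \ W) \ Y).card) ≤ V := by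
    intro K' hK' Y hpure
    have h2 := H K' (hK'.trans hK1K) (W ∪ Y) (by
      intro k hk l hl
      rw [Finset.disjoint_left]
      intro y hy hyW
      rw [Finset.mem_inter] at hy
      have hl' := hK1W l (hK' hl)
      have hyW' : y ∉ W := fun h => (Finset.disjoint_left.mp hl') hy.2 h
      rcases Finset.mem_union.mp hyW with h | h
      · exact hyW' h
      · exact (Finset.disjoint_left.mp (hpure k hk l hl))
          (Finset.mem_inter.mpr ⟨Finset.mem_sdiff.mpr ⟨hy.1, hyW'⟩,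
            Finset.mem_sdiff.mpr ⟨hy.2, hyW'⟩⟩) h)
    simpa only [Finset.sdiff_sdiff_left', Finset.sdiff_union_distrib, sdiff_sdiff_left,
      Finset.sup_eq_union] using h2
  obtain ⟨q, hq⟩ : ∃ q : α → ℝ, q = prof K1 (fun k => B k \ W)
    (fun k => x0 ^ ((A k \ W).card + (B k \ W).card)) := ⟨_, rfl⟩
  have hqm : ∀ Y : Finset α, ∑ z ∈ Y, q z ≤ 123 * (Y.card : ℝ) ^ ((1 : ℝ) / 4) := by
    intro Y
    rw [hq]
    exact profB K1 (fun k => A k \ W) (fun k => B k \ W) x0 V hx0 hxle hd1 h11 hV0 H1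
      (by rw [← hV1d]; exact hVV1) Y
  have hq0 : ∀ z, 0 ≤ q z := by
    intro z
    rw [hq]
    exact prof_nonneg K1 _ _ (fun k => by positivity) z
  have hq1 : ∀ z, q z ≤ 1 := by
    intro z
    rw [hq]
    exact prof_le_one K1 _ _ (fun k => by positivity) z
  -- second moments
  have hsp : ∑ z ∈ Y0, p z ^ 2 ≤ η0 ^ ((1 : ℝ) / 2) * C4 := by
    refine sq' p hp0 η0 η0_pos.le Y0 ?_ (fun Y' _ => hpm Y')
    intro z hz
    rw [hY0, Finset.mem_sdiff] at hz
    by_contra hlt
    push Not at hlt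
    exact hz.2 (by rw [hW]; exact Finset.mem_filter.mpr ⟨hz.1, hlt.le⟩)
  have hsq : ∑ z ∈ Y0, q z ^ 2 ≤ C4 := by
    have h2 := sq' q hq0 1 zero_le_one Y0 (fun z _ => hq1 z) (fun Y' _ => hqm Y')
    rwa [Real.one_rpow, one_mul] at h2
  -- double counting
  have hdc : 5 / 9 ≤ ∑ z ∈ Y0, p z * q z := by
    have h2 : ∀ z, p z * q z * (V * V1) =
        ∑ l ∈ K, ∑ k ∈ K1, (if z ∈ A l ∧ z ∈ B k \ W then
          x0 ^ ((A l).card + (B l).card) * x0 ^ ((A k \ W).card + (B k \ W).card) else 0) := by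
      intro z
      have e1 : p z * V = ∑ l ∈ K, if z ∈ A l then x0 ^ ((A l).card + (B l).card) else 0 := by
        rw [hp, prof, ← hVd]
        field_simp
      have e2 : q z * V1 = ∑ k ∈ K1, if z ∈ B k \ W then
          x0 ^ ((A k \ W).card + (B k \ W).card) else 0 := by
        rw [hq, prof, ← hV1d]
        field_simp
      calc p z * q z * (V * V1) = (p z * V) * (q z * V1) := by ring
        _ = _ := by
            rw [e1, e2, Finset.sum_mul_sum]
            refine Finset.sum_congr rfl fun l _ => Finset.sum_congr rfl fun k _ => ?_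
            by_cases ha : z ∈ A l
            · by_cases hb : z ∈ B k \ W
              · rw [if_pos ha, if_pos hb, if_pos ⟨ha, hb⟩]
              · rw [if_neg hb, mul_zero, if_neg (fun h : z ∈ A l ∧ z ∈ B k \ W => hb h.2)]
            · rw [if_neg ha, zero_mul, if_neg (fun h : z ∈ A l ∧ z ∈ B k \ W => ha h.1)]
    have h3 : (∑ z ∈ Y0, p z * q z) * (V * V1) =
        ∑ l ∈ K, ∑ k ∈ K1, ∑ z ∈ Y0, (if z ∈ A l ∧ z ∈ B k \ W then
          x0 ^ ((A l).card + (B l).card) * x0 ^ ((A k \ W).card + (B k \ W).card) else 0) := by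
      rw [Finset.sum_mul, Finset.sum_congr rfl (fun z _ => h2 z), Finset.sum_comm]
      refine Finset.sum_congr rfl fun l _ => ?_
      rw [Finset.sum_comm]
    have h4 : ∑ l ∈ K, ∑ k ∈ K1, (x0 ^ ((A l).card + (B l).card) *
        x0 ^ ((A k \ W).card + (B k \ W).card) - (if l = k then
          x0 ^ ((A l).card + (B l).card) * x0 ^ ((A k \ W).card + (B k \ W).card) else 0)) ≤
        (∑ z ∈ Y0, p z * q z) * (V * V1) := by
      rw [h3]
      refine Finset.sum_le_sum fun l hl => Finset.sum_le_sum fun k hk => ?_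
      have hnn : ∀ z ∈ Y0, 0 ≤ (if z ∈ A l ∧ z ∈ B k \ W then
          x0 ^ ((A l).card + (B l).card) * x0 ^ ((A k \ W).card + (B k \ W).card) else 0) := by
        intro z _
        split_ifs
        · positivity
        · exact le_rfl
      by_cases hlk : l = k
      · rw [if_pos hlk, sub_self]
        exact Finset.sum_nonneg hnn
      · rw [if_neg hlk, sub_zero]
        have hc1 := hc l hl k (hK1K hk) hlk
        rw [Finset.card_eq_one] at hc1
        obtain ⟨z, hz⟩ := hc1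
        have hzm : z ∈ A l ∩ B k := by rw [hz]; exact Finset.mem_singleton_self z
        rw [Finset.mem_inter] at hzm
        have hzW : z ∉ W := fun h => (Finset.disjoint_left.mp (hK1W k hk)) hzm.2 h
        have hzY : z ∈ Y0 := by
          rw [hY0, Finset.mem_sdiff]
          exact ⟨Finset.mem_biUnion.mpr ⟨l, hl, hzm.1⟩, hzW⟩
        have h5 := Finset.single_le_sum hnn hzY
        rw [if_pos ⟨hzm.1, Finset.mem_sdiff.mpr ⟨hzm.2, hzW⟩⟩] at h5
        exact h5
    have h5 : ∑ l ∈ K, ∑ k ∈ K1, (x0 ^ ((A l).card + (B l).card) *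
        x0 ^ ((A k \ W).card + (B k \ W).card) - (if l = k then
          x0 ^ ((A l).card + (B l).card) * x0 ^ ((A k \ W).card + (B k \ W).card) else 0)) =
        V * V1 - ∑ k ∈ K1, x0 ^ ((A k).card + (B k).card) *
          x0 ^ ((A k \ W).card + (B k \ W).card) := by
      simp only [Finset.sum_sub_distrib]
      congr 1
      · rw [hVd, hV1d, Finset.sum_mul_sum]
      · rw [Finset.sum_comm]
        refine Finset.sum_congr rfl fun k hk => ?_
        rw [Finset.sum_ite_eq' K k, if_pos (hK1K hk)]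
    have h6 : ∑ k ∈ K1, x0 ^ ((A k).card + (B k).card) *
          x0 ^ ((A k \ W).card + (B k \ W).card) ≤ 4 / 9 * V1 := by
      rw [hV1d, Finset.mul_sum]
      exact Finset.sum_le_sum fun k hk =>
        mul_le_mul_of_nonneg_right (hsmall k (hK1K hk)) (by positivity)
    rw [h5] at h4
    have h7 : 5 / 9 * (V * V1) ≤ (∑ z ∈ Y0, p z * q z) * (V * V1) := by
      nlinarith
    exact le_of_mul_le_mul_right h7 (mul_pos hV0 hV10)
  -- Cauchy-Schwarz
  have hCS := Finset.sum_mul_sq_le_sq_mul_sq Y0 p q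
  have hC4 := C4_nonneg
  have hp2 : 0 ≤ ∑ z ∈ Y0, p z ^ 2 := Finset.sum_nonneg fun z _ => sq_nonneg _
  have hq2 : 0 ≤ ∑ z ∈ Y0, q z ^ 2 := Finset.sum_nonneg fun z _ => sq_nonneg _
  have hprod : (∑ z ∈ Y0, p z ^ 2) * (∑ z ∈ Y0, q z ^ 2) ≤ η0 ^ ((1 : ℝ) / 2) * C4 * C4 :=
    mul_le_mul hsp hsq hq2 (hp2.trans hsp)
  rw [η0_sqrt] at hprod
  have hfin : 1 / (4 * (C4 ^ 2 + 1)) * C4 * C4 ≤ 1 / 4 := by
    rw [div_mul_eq_mul_div, div_mul_eq_mul_div, div_le_div_iff₀ (by positivity) (by norm_num)]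
    nlinarith
  have h25 : (5 / 9 : ℝ) ^ 2 ≤ (∑ z ∈ Y0, p z * q z) ^ 2 :=
    pow_le_pow_left₀ (by norm_num) hdc 2
  norm_num at h25
  linarith

/-- The weighted inequality for all one-cross intersecting systems. -/
theorem main {ι α : Type*} [DecidableEq ι] [DecidableEq α] : ∀ (n : ℕ) (K : Finset ι)
    (A B : ι → Finset α), ∑ k ∈ K, ((A k).card + (B k).card) = n →
    (∀ k ∈ K, Disjoint (A k) (B k)) →
    (∀ k ∈ K, ∀ l ∈ K, k ≠ l → (A k ∩ B l).card = 1) →
    ∑ k ∈ K, x0 ^ ((A k).card + (B k).card) ≤ 1 := by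
  have hx0 : 0 < x0 := by linarith [x0_half]
  intro n
  induction n using Nat.strong_induction_on with
  | _ n ih =>
    intro K A B hn hd hc
    by_contra hlt
    push Not at hlt
    refine main_step K A B _ hd hc rfl hlt ?_
    intro K' hK' Y hpure
    by_cases hall : ∀ k ∈ K', (A k \ Y).card + (B k \ Y).card = (A k).card + (B k).card
    · calc ∑ k ∈ K', x0 ^ ((A k \ Y).card + (B k \ Y).card)
          = ∑ k ∈ K', x0 ^ ((A k).card + (B k).card) :=
            Finset.sum_congr rfl fun k hk => by rw [hall k hk]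
        _ ≤ _ := Finset.sum_le_sum_of_subset_of_nonneg hK' fun k _ _ => by positivity
    · push Not at hall
      obtain ⟨k0, hk0, hne⟩ := hall
      have hle : ∀ k ∈ K', (A k \ Y).card + (B k \ Y).card ≤ (A k).card + (B k).card :=
        fun k _ => add_le_add (Finset.card_le_card Finset.sdiff_subset)
          (Finset.card_le_card Finset.sdiff_subset)
      have h1 : ∑ k ∈ K', ((A k \ Y).card + (B k \ Y).card) <
          ∑ k ∈ K', ((A k).card + (B k).card) :=
        Finset.sum_lt_sum hle ⟨k0, hk0, lt_of_le_of_ne (hle k0 hk0) hne⟩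
      have h2 : ∑ k ∈ K', ((A k).card + (B k).card) ≤ ∑ k ∈ K, ((A k).card + (B k).card) :=
        Finset.sum_le_sum_of_subset hK'
      refine (ih _ (by rw [← hn]; exact lt_of_lt_of_le h1 h2) K' (fun k => A k \ Y)
        (fun k => B k \ Y) rfl ?_ ?_).trans hlt.le
      · intro k hk
        exact Finset.disjoint_of_subset_left Finset.sdiff_subset
          (Finset.disjoint_of_subset_right Finset.sdiff_subset (hd k (hK' hk)))
      · intro k hk l hl hkl
        have h3 := hc k (hK' hk) l (hK' hl) hkl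
        have h4 : (A k \ Y) ∩ (B l \ Y) = A k ∩ B l := by
          ext y
          simp only [Finset.mem_inter, Finset.mem_sdiff]
          constructor
          · rintro ⟨⟨ha, _⟩, hb, _⟩
            exact ⟨ha, hb⟩
          · rintro ⟨ha, hb⟩
            have hyY : y ∉ Y := (Finset.disjoint_left.mp (hpure k hk l hl))
              (Finset.mem_inter.mpr ⟨ha, hb⟩)
            exact ⟨⟨ha, hyY⟩, hb, hyY⟩
        rw [h4, h3]

end Pool.Agent.Helper992.OneX
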